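import Mathlib
import Pool.Agent.Helper31.RNEST.Main

/-!
Double covers branched along links with crossings of both signs: an alternating diagram, one
polygonal region of which, with at most five corners, is filled with an alternating diagram of
the opposite sign; triangular regions of both diagrams are filled with alternating diagrams of
the opposite sign, and so on, to any depth.  The fundamental group is not left-orderable.
-/

set_option autoImplicit false

namespace Pool.Agent.Results.MP_9ae2f3_gt.NestedFillings

open Pool.Agent.Helper42.Th
open Pool.Agent.Helper31.RNEST

/-- Let `G` be generated by elements which satisfy the relations of the fundamental group of the
double branched cover of a link diagram with crossings of both signs: inside of some triangles of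
the diagram, the signs are opposite to the sign of the sides of the triangle, and the inside is
joined to each of the three vertices by one edge (leg) only; this may be repeated inside.  Every
leg `e` has a bound `b e` for its slope, at most one of the three bounds is infinite, and the
slope of the side between two legs is at least the minimum of their bounds, in absolute value.

If there is a polygon (`B` is not empty), the diagram is on the sphere, the polygon has at most
five corners, its sides are positive with slopes at least `1`, at most one edge (leg) leads from
each corner into the polygon, with a slope between `-lam k` and `0`, where the `lam k` are `1` or
in one of five lists, and the signs inside are opposite to the signs outside, again up to filled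
triangles.  Then `G` is not left-orderable. -/
theorem result {E : Type} [Finite E] {G : Type*} [Group G] (Γ : CMap E) (L : Lab G Γ)
    (s : E → Bool) (A B : Set E) (r : E → ℕ) (b : E → ℕ∞) {m : ℕ} (σ : ZMod m → E)
    (lam : ZMod m → ℕ) (P : Set E) (F : E → Set G) (hN : Nest Γ s A B r b σ)
    (hlam : Admissible lam) (hF : Filled L s A B b lam σ P F)
    (hgen : Subgroup.closure (L.elts ∪ ⋃ d ∈ P, F d) = ⊤) :
    ¬ (Nontrivial G ∧ ∃ _ : LinearOrder G, ∀ f g h : G, g ≤ h → f * g ≤ f * h) :=
  not_leftOrderable hN hlam L P F hF hgen

end Pool.Agent.Results.MP_9ae2f3_gt.NestedFillings
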